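import Pool.Agent.Lib.helper14.HaarDec

set_option autoImplicit false

namespace Pool.Agent.Results.MP_ee7e89_lc.Ball

open MeasureTheory

/-- The closed unit ball of `ℝⁿ`. -/
abbrev Disc (n : ℕ) : Type := Metric.closedBall (0 : EuclideanSpace ℝ (Fin n)) 1

/-- Orientation-preserving homeomorphisms of the ball: continuous bijections that are homotopic to
the identity through maps sending the boundary sphere into itself (degree one on the pair). -/
def HPlus (n : ℕ) : Set C(Disc n, Disc n) :=
  {f | Function.Bijective f ∧ ContinuousMap.HomotopicWith f (ContinuousMap.id (Disc n))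
    fun g => ∀ x : Disc n, ‖(x : EuclideanSpace ℝ (Fin n))‖ = 1 →
      ‖(g x : EuclideanSpace ℝ (Fin n))‖ = 1}

/-- Christensen's Haar null sets in a group `G` of self-maps of `X`. -/
def HaarNull {X : Type} [TopologicalSpace X] {G : Set C(X, X)} (N : Set G) : Prop :=
  ∃ B : Set G, N ⊆ B ∧ MeasurableSet[borel G] B ∧
    ∃ μ : @Measure G (borel G), IsProbabilityMeasure μ ∧ ∀ g h : G,
      μ {x | ∃ b ∈ B, x.1 = g.1.comp (b.1.comp h.1)} = 0

/-- `G` is the union of a meagre set and a Haar null set. -/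
def Covered {X : Type} [TopologicalSpace X] (G : Set C(X, X)) : Prop :=
  ∃ M N : Set G, IsMeagre M ∧ HaarNull N ∧ M ∪ N = Set.univ

theorem result (n : ℕ) (hn : 3 ≤ n) : Covered (HPlus n) := by
  obtain ⟨M, N, h1, -, h2, h3, h4⟩ :=
    H14Deg.ball_dec n (by omega) _ rfl (HPlus n) rfl _ rfl
  exact ⟨M, N, h2, ⟨N, subset_rfl, h3, h4⟩, h1⟩

end Pool.Agent.Results.MP_ee7e89_lc.Ball
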